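import Pool.Agent.N407.BZ.Near
import Pool.Agent.Results.MP_fcb754_nt.AlmostAllWeights

/-!
# The Lindelöf-type bound for the Barnes multiple zeta function for almost all weights near values of multiplicative functions

Let `f` be a positive multiplicative function of at most polynomial growth such that `f p ≤ M p` for the large primes `p`, with
different values at different large primes; for example Euler's function or the sum of the divisors. Let `G` be a function with
steps bounded below by a positive constant and growth at most `v ^ δ`, for example `G v = α v ^ δ`. Let `0 ≤ κ < 1` and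
`δ (1 - 2 η) + κ < 1`.

For every `d ≥ 1` and almost every `v ∈ ℝ^d` the following holds for all `r ≥ 2`, all positive weights `w` with
`ℚ w₁ + ⋯ + ℚ w_r = ℚ v₁ + ⋯ + ℚ v_d` (so that the dimension is `d`) and all `a > 0`, `σ₁` and `U`: for all `m ≤ N` but
`N / (log N) ^ U`, the bound `|ζ_r(σ + it; a, w)| ≤ t ^ η` holds for ALL `t ≥ 2` with `|t - G(f(m))| ≤ f(m) ^ κ` and all
`σ ∈ [r - d/2, σ₁]`. For functions `G` of linear growth every `η > 0` is admissible, with `κ < 2 η` (for example `κ = 0`): the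
bound of Q1 with every exponent `ε > 0` holds in the full strip over the windows of a fixed length at `G(φ(m))` for almost all
`m`.

Proof idea: Cauchy's formula with a Gaussian weight bounds the square of the supremum over the strip and over a unit interval of
ordinates by a local mean square on a line further to the left, uniformly; with the mean square for almost all weights
(`AlmostAllWeights`) the number of the `n ≤ X` such that the bound `t ^ η` fails at some `t ∈ [n, n + 1]` is
`O(X ^ (1 - 2 η + ε))`. The values of `f` keep away from sets with such a power saving (helper733, N733/TG), although they are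
in general taken with very large multiplicities.
-/

set_option autoImplicit false

namespace Pool.Agent.Results.MP_fcb754_nt.MultiplicativeValues

open Pool.Agent.N733.TG (LM Expanding lm_totient lm_sigma expanding_pow)
open Pool.Agent.Results.MP_fcb754_nt.AlmostAllWeights (IsBarnesZeta weightDim exists_zeta zeta_eq weightDim_eq span_of_matrix)

/-- The bound `t ^ η` near the values `G (f m)`: with `d` the dimension of the weights, for all `a > 0`, all multiplicative
functions `f` and all `G` as above, all `σ₁`, `η` and `0 ≤ κ < 1` with `δ (1 - 2 η) + κ < 1` and all `U`, for all `m ≤ N` but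
`N / (log N) ^ U`, `|ζ_r(σ + it, a, w)| ≤ t ^ η` for all `t ≥ 2` with `|t - G (f m)| ≤ f(m) ^ κ` and all
`σ ∈ [r - d/2, σ₁]`. -/
def SmallNearValues (r : ℕ) (w : Fin r → ℝ) : Prop :=
  ∀ (a : ℝ) (Z : ℂ → ℂ), 0 < a → IsBarnesZeta r a w Z → ∀ f : ℕ → ℕ, LM f → ∀ (G : ℕ → ℝ) (δ : ℝ), Expanding G δ →
    ∀ σ₁ η κ : ℝ, 0 ≤ κ → κ < 1 → δ * (1 - 2 * η) + κ < 1 → ∀ U : ℕ, ∃ N₀ : ℕ, ∀ N : ℕ, N₀ ≤ N →
      ({m : ℕ | 1 ≤ m ∧ m ≤ N ∧ ∃ t σ : ℝ, 2 ≤ t ∧ |t - G (f m)| ≤ (f m : ℝ) ^ κ ∧
        (r : ℝ) - (weightDim r w : ℝ) / 2 ≤ σ ∧ σ ≤ σ₁ ∧ t ^ η < ‖Z (σ + t * Complex.I)‖}.ncard : ℝ) ≤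
          N / Real.log N ^ U

theorem small_of_good {d : ℕ} {v : Fin d → ℝ} (hv : LinearIndependent ℚ v)
    (hG : Pool.Agent.Y616.BM.Good v) {r : ℕ} (hr : 2 ≤ r) {w : Fin r → ℝ} (hw : ∀ i, 0 < w i)
    (hspan : Submodule.span ℚ (Set.range w) = Submodule.span ℚ (Set.range v)) : SmallNearValues r w := by
  intro a Z ha hZ f hf G δ hE σ₁ η κ hκ hκ1 h U
  rw [weightDim_eq hv hspan]
  obtain ⟨c, hc⟩ := Pool.Agent.H131R5.BZ.exists_taylor a hw
  have hη : 0 ≤ η := by
    have h1 := hE.one_le
    nlinarith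
  obtain ⟨N₀, hN₀⟩ := Pool.Agent.N407.BZ.ff_mult hv hG hr ha hw hspan hc hf hE σ₁ hη hκ hκ1 h U
  refine ⟨N₀, fun N hN => le_trans (le_of_eq ?_) (hN₀ N hN)⟩
  congr 2
  ext m
  simp only [Set.mem_ofPred_eq]
  constructor
  · rintro ⟨g1, g2, t, σ, g3, g4, g5, g6, g7⟩
    refine ⟨g1, g2, t, σ, g3, g4, g5, g6, ?_⟩
    rw [← zeta_eq ha hw hc hZ σ (by linarith)]
    exact g7
  · rintro ⟨g1, g2, t, σ, g3, g4, g5, g6, g7⟩
    refine ⟨g1, g2, t, σ, g3, g4, g5, g6, ?_⟩
    rw [zeta_eq ha hw hc hZ σ (by linarith)]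
    exact g7

/-- (1) The Barnes multiple zeta function exists (as defined in `AlmostAllWeights`) for all `r`, `a > 0` and positive weights `w`.
(2) For every `d` and almost every `v ∈ ℝ^d`: all positive weights `w`, in any number `r ≥ 2`, which span the same `ℚ`-space as
`v` have dimension `d` and satisfy `SmallNearValues`. (3) For `2 ≤ r` and every rational `r × d` matrix `B` of rank `d`, for
almost every `v ∈ ℝ^d` this holds for the weights `w = B v`, if they are positive. (4) Almost all positive `w ∈ ℝ^r`, `r ≥ 2`,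
have dimension `r` and satisfy `SmallNearValues`. (5) Euler's function and the sum of the divisors are examples of `f`, and
`α v ^ δ` with `α > 0`, `δ ≥ 1` is an example of `G`. -/
theorem result :
    (∀ (r : ℕ) (a : ℝ) (w : Fin r → ℝ), 0 < a → (∀ i, 0 < w i) →
      ∃ Z : ℂ → ℂ, IsBarnesZeta r a w Z) ∧
    (∀ d : ℕ, ∀ᵐ v : Fin d → ℝ, LinearIndependent ℚ v ∧
      ∀ (r : ℕ) (w : Fin r → ℝ), 2 ≤ r → (∀ i, 0 < w i) →
        Submodule.span ℚ (Set.range w) = Submodule.span ℚ (Set.range v) →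
        weightDim r w = d ∧ SmallNearValues r w) ∧
    (∀ r d : ℕ, 2 ≤ r → ∀ B : Matrix (Fin r) (Fin d) ℚ, Function.Injective B.mulVec →
      ∀ᵐ v : Fin d → ℝ, (∀ i, 0 < (B.map (fun q : ℚ => (q : ℝ))).mulVec v i) →
        weightDim r ((B.map (fun q : ℚ => (q : ℝ))).mulVec v) = d ∧
          SmallNearValues r ((B.map (fun q : ℚ => (q : ℝ))).mulVec v)) ∧
    (∀ r : ℕ, 2 ≤ r → ∀ᵐ w : Fin r → ℝ, (∀ i, 0 < w i) →
      weightDim r w = r ∧ SmallNearValues r w) ∧
    (LM Nat.totient ∧ LM (fun m => ∑ d ∈ m.divisors, d)) ∧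
    ∀ α δ : ℝ, 0 < α → 1 ≤ δ → Expanding (fun v => α * (v : ℝ) ^ δ) δ := by
  refine ⟨exists_zeta, fun d => ?_, fun r d hr B hB => ?_, fun r hr => ?_, ⟨lm_totient, lm_sigma⟩,
    fun α δ hα hδ => expanding_pow hα hδ⟩
  · filter_upwards [Pool.Agent.Y616.BM.ae_good d, Pool.Agent.Y616.BM.ae_indep d] with v hG hv
    exact ⟨hv, fun r w hr hw hspan => ⟨weightDim_eq hv hspan, small_of_good hv hG hr hw hspan⟩⟩
  · filter_upwards [Pool.Agent.Y616.BM.ae_good d, Pool.Agent.Y616.BM.ae_indep d] with v hG hv hw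
    have hspan := span_of_matrix B hB v
    exact ⟨weightDim_eq hv hspan, small_of_good hv hG hr hw hspan⟩
  · filter_upwards [Pool.Agent.Y616.BM.ae_good r, Pool.Agent.Y616.BM.ae_indep r] with v hG hv hw
    exact ⟨weightDim_eq hv rfl, small_of_good hv hG hr hw rfl⟩

end Pool.Agent.Results.MP_fcb754_nt.MultiplicativeValues
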