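import Pool.Agent.N918.MS.Fam
import Pool.Agent.Results.MP_fcb754_nt.AlmostAllWeights

/-!
# The bound of Q1 for Barnes zeta functions at random heights and at metric sequences of heights

Let `d` be the dimension of the `ℚ`-space spanned by the weights `w`. The starting theorem `AlmostAllWeights` gives, for almost
all weights, a bound for the measure of the set of the `t` for which `|ζ_r(σ + it, a, w)| > t ^ η` for some
`σ ∈ [r - d/2, σ₁]`. It says nothing about given sequences of heights. We prove for these weights, for all `a > 0`: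

* for random heights `T_0, T_1, …`, of ANY dependence, with `P (T_n ∈ S) ≤ C |S| / X` for `S ⊆ [X, 2X]` and `T_n ≥ c n ^ K`,
  almost surely, for all `σ₁` and `η`: if `η > 1 / (2K)`, then `|ζ_r(σ + i T_n, a, w)| ≤ T_n ^ η` for all
  `σ ∈ [r - d/2, σ₁]` and all but finitely many `n`; if `η ≤ 1 / (2K)`, this holds for all but `N ^ s` of the `n < N`, for all
  `s > 1 - 2 η K` (`η > 0`). So the Lindelöf type bound of Q1, with all `ε > 0`, holds along all random heights which grow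
  faster than all powers of `n`;
* the same for `T_n = h_n (x)`, for almost all `x` in an interval on which `h_n' ≥ c h_n > 0` and `h_n ≥ c' n ^ K`, and for
  `T_n = a_n x`, for almost all `x > 0`, for ANY numbers `a_n ≥ c n ^ K`;
* for `ξ > 0` and almost all `x > 1` the bound of Q1, with all `ε > 0`, holds for the `t = ξ x ^ n`, for all but finitely
  many `n`.
-/

set_option autoImplicit false

namespace Pool.Agent.Results.MP_fcb754_nt.RandomHeights

open MeasureTheory Filter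
open Pool.Agent.N918.MS (Heights Along Rare)
open Pool.Agent.Results.MP_fcb754_nt.AlmostAllWeights (IsBarnesZeta weightDim LargeValuesRare)

/-- the value of `Z` at some point `σ + it`, `r - d/2 ≤ σ ≤ σ₁`, is larger than `t ^ η` in absolute value, `t ≥ 1` -/
def Large {r : ℕ} (w : Fin r → ℝ) (Z : ℂ → ℂ) (σ₁ η t : ℝ) : Prop :=
  1 ≤ t ∧ ∃ σ : ℝ, (r : ℝ) - (weightDim r w : ℝ) / 2 ≤ σ ∧ σ ≤ σ₁ ∧ t ^ η < ‖Z (σ + t * Complex.I)‖

/-- the bound of Q1 with the exponent `η` along the heights `t_n`, which are at least `c n ^ K`: for all but finitely many `n`,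
if `η > 1 / (2K)`, and for all but `N ^ s` of the `n < N`, for all `s > 1 - 2 η K` -/
def BoundAlong {r : ℕ} (w : Fin r → ℝ) (Z : ℂ → ℂ) (K : ℝ) (t : ℕ → ℝ) : Prop :=
  ∀ σ₁ η : ℝ, (1 < 2 * η * K → ∀ᶠ n in atTop, ¬ Large w Z σ₁ η (t n)) ∧
    (0 < η → ∀ s : ℝ, 0 < s → 1 - 2 * η * K < s →
      ∀ᶠ N : ℕ in atTop, ({n : ℕ | n < N ∧ Large w Z σ₁ η (t n)}.ncard : ℝ) ≤ (N : ℝ) ^ s)

/-- the four properties of the weights `w` -/
structure HeightsGood (r : ℕ) (w : Fin r → ℝ) : Prop where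
  random : ∀ (a : ℝ) (Z : ℂ → ℂ), 0 < a → IsBarnesZeta r a w Z →
    ∀ (Ω : Type) [MeasurableSpace Ω] (μ : Measure Ω) [IsProbabilityMeasure μ] (T : ℕ → Ω → ℝ) (C c K : ℝ), 0 ≤ C → 0 < c →
      0 < K → Heights μ T C c K → ∀ᵐ ω ∂μ, BoundAlong w Z K (fun n => T n ω)
  steep : ∀ (a : ℝ) (Z : ℂ → ℂ), 0 < a → IsBarnesZeta r a w Z →
    ∀ (A A' c c' K : ℝ) (h h' : ℕ → ℝ → ℝ), 0 < c → 0 < c' → 0 < K →
      (∀ n : ℕ, ∀ x ∈ Set.Icc A A', HasDerivAt (h n) (h' n x) x ∧ 0 < h n x ∧ c * h n x ≤ h' n x ∧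
        c' * (n : ℝ) ^ K ≤ h n x) → ∀ᵐ x : ℝ, x ∈ Set.Icc A A' → BoundAlong w Z K (fun n => h n x)
  multiples : ∀ (a : ℝ) (Z : ℂ → ℂ), 0 < a → IsBarnesZeta r a w Z →
    ∀ (b : ℕ → ℝ) (c K : ℝ), 0 < c → 0 < K → (∀ n, 0 < b n) → (∀ n : ℕ, c * (n : ℝ) ^ K ≤ b n) →
      ∀ᵐ x : ℝ, 0 < x → BoundAlong w Z K (fun n => b n * x)
  powers : ∀ (a : ℝ) (Z : ℂ → ℂ), 0 < a → IsBarnesZeta r a w Z → ∀ ξ : ℝ, 0 < ξ → ∀ᵐ x : ℝ, 1 < x → ∀ σ₁ η : ℝ, 0 < η →
    ∀ᶠ n : ℕ in atTop, ¬ Large w Z σ₁ η (ξ * x ^ n)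

lemma Large.mono {r : ℕ} {w : Fin r → ℝ} {Z : ℂ → ℂ} {σ₁ σ₂ η η' t : ℝ} (hσ : σ₁ ≤ σ₂) (hη : η' ≤ η)
    (h : Large w Z σ₁ η t) : Large w Z σ₂ η' t := by
  obtain ⟨ht, σ, h1, h2, h3⟩ := h
  exact ⟨ht, σ, h1, h2.trans hσ, lt_of_le_of_lt (Real.rpow_le_rpow_of_exponent_le ht hη) h3⟩

/-- the exceptional sets -/
def bad {r : ℕ} (w : Fin r → ℝ) (Z : ℂ → ℂ) (i : {q : ℚ // 0 < q} × ℕ) : Set ℝ := {t | Large w Z i.2 (i.1 : ℚ) t}

lemma rare_bad {r : ℕ} {w : Fin r → ℝ} (hw : LargeValuesRare r w) {a : ℝ} {Z : ℂ → ℂ} (ha : 0 < a)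
    (hZ : IsBarnesZeta r a w Z) (i : {q : ℚ // 0 < q} × ℕ) : Rare (2 * ((i.1 : ℚ) : ℝ)) (bad w Z i) := by
  intro ε hε
  have hq : (0 : ℝ) < ((i.1 : ℚ) : ℝ) := by exact_mod_cast i.1.2
  obtain ⟨C, hC⟩ := hw a Z ha hZ i.2 ((i.1 : ℚ) : ℝ) ε hq.le hε
  refine ⟨C, fun X hX => (measure_mono ?_).trans (hC X hX)⟩
  rintro t ⟨⟨-, σ, h1, h2, h3⟩, h4, h5⟩
  exact ⟨h4, h5, σ, h1, h2, h3⟩

lemma bound_of_along {r : ℕ} {w : Fin r → ℝ} {Z : ℂ → ℂ} {K : ℝ} (hK : 0 < K) {t : ℕ → ℝ}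
    (h : Along (fun i : {q : ℚ // 0 < q} × ℕ => 2 * ((i.1 : ℚ) : ℝ)) (bad w Z) K t) : BoundAlong w Z K t := by
  intro σ₁ η
  obtain ⟨m, hm⟩ := exists_nat_ge σ₁
  constructor
  · intro hη
    have h1 : max 0 (1 / (2 * K)) < η := by
      refine max_lt ?_ ?_
      · by_contra hneg
        push Not at hneg
        nlinarith
      · rw [div_lt_iff₀ (by positivity)]
        linarith
    obtain ⟨q, hq1, hq2⟩ := exists_rat_btwn h1
    have hq0 : (0 : ℝ) < q := lt_of_le_of_lt (le_max_left _ _) hq1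
    have hq3 : 1 / (2 * K) < q := lt_of_le_of_lt (le_max_right _ _) hq1
    rw [div_lt_iff₀ (by positivity)] at hq3
    have h2 := (h (⟨q, by exact_mod_cast hq0⟩, m)).1 (by simp only; linarith)
    filter_upwards [h2] with n hn hL
    exact hn (Large.mono hm hq2.le hL)
  · intro hη s hs0 hs
    have h1 : max 0 ((1 - s) / (2 * K)) < η := by
      refine max_lt hη ?_
      rw [div_lt_iff₀ (by positivity)]
      linarith
    obtain ⟨q, hq1, hq2⟩ := exists_rat_btwn h1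
    have hq0 : (0 : ℝ) < q := lt_of_le_of_lt (le_max_left _ _) hq1
    have hq3 : (1 - s) / (2 * K) < q := lt_of_le_of_lt (le_max_right _ _) hq1
    rw [div_lt_iff₀ (by positivity)] at hq3
    have h2 := (h (⟨q, by exact_mod_cast hq0⟩, m)).2 (by simp only; linarith) s hs0 (by simp only; linarith)
    filter_upwards [h2] with N hN
    refine le_trans (Nat.cast_le.2 (Set.ncard_le_ncard ?_ ?_)) hN
    · rintro n ⟨hn1, hn2⟩
      exact ⟨hn1, Large.mono hm hq2.le hn2⟩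
    · exact (Set.finite_lt_nat N).subset fun n hn => hn.1

theorem good_of_rare {r : ℕ} {w : Fin r → ℝ} (hw : LargeValuesRare r w) : HeightsGood r w where
  random a Z ha hZ Ω _ μ _ T C c K hC hc hK hT := by
    filter_upwards [Pool.Agent.N918.MS.along_of _ _ (rare_bad hw ha hZ) μ T hC hc hK hT] with ω hω
    exact bound_of_along hK hω
  steep a Z ha hZ A A' c c' K h h' hc hc' hK hh := by
    filter_upwards [Pool.Agent.N918.MS.along_steep _ _ (rare_bad hw ha hZ) hc hc' hK h h' hh] with x hx hx'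
    exact bound_of_along hK (hx hx')
  multiples a Z ha hZ b c K hc hK hb0 hb := by
    filter_upwards [Pool.Agent.N918.MS.along_mul _ _ (rare_bad hw ha hZ) hc hK b hb0 hb] with x hx hx'
    exact bound_of_along hK (hx hx')
  powers a Z ha hZ ξ hξ := by
    filter_upwards [Pool.Agent.N918.MS.along_pow _ _ (rare_bad hw ha hZ) hξ] with x hx hx1 σ₁ η hη
    obtain ⟨m, hm⟩ := exists_nat_ge σ₁
    obtain ⟨q, hq1, hq2⟩ := exists_rat_btwn hη
    have h2 := hx hx1 (⟨q, by exact_mod_cast hq1⟩, m) (by simp only; linarith)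
    filter_upwards [h2] with n hn hL
    exact hn (Large.mono hm hq2.le hL)

/-- (1) The Barnes multiple zeta function exists for all `r`, `a > 0` and positive weights `w`. (2) For every `d ≥ 1` and almost
every `v ∈ ℝ^d` all positive weights `w`, in any number `r ≥ 2`, which span the same `ℚ`-space as `v` have dimension `d` and
satisfy `HeightsGood`. (3) For `1 ≤ d`, `2 ≤ r` and every rational `r × d` matrix `B` of rank `d`, for almost every `v ∈ ℝ^d`
this holds for the weights `w = B v`, if they are positive. (4) Almost all positive `w ∈ ℝ^r`, `r ≥ 2`, have dimension `r` and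
satisfy `HeightsGood`. -/
theorem result :
    (∀ (r : ℕ) (a : ℝ) (w : Fin r → ℝ), 0 < a → (∀ i, 0 < w i) →
      ∃ Z : ℂ → ℂ, IsBarnesZeta r a w Z) ∧
    (∀ d : ℕ, 1 ≤ d → ∀ᵐ v : Fin d → ℝ, LinearIndependent ℚ v ∧
      ∀ (r : ℕ) (w : Fin r → ℝ), 2 ≤ r → (∀ i, 0 < w i) →
        Submodule.span ℚ (Set.range w) = Submodule.span ℚ (Set.range v) →
        weightDim r w = d ∧ HeightsGood r w) ∧
    (∀ r d : ℕ, 2 ≤ r → 1 ≤ d → ∀ B : Matrix (Fin r) (Fin d) ℚ, Function.Injective B.mulVec →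
      ∀ᵐ v : Fin d → ℝ, (∀ i, 0 < (B.map (fun q : ℚ => (q : ℝ))).mulVec v i) →
        weightDim r ((B.map (fun q : ℚ => (q : ℝ))).mulVec v) = d ∧
          HeightsGood r ((B.map (fun q : ℚ => (q : ℝ))).mulVec v)) ∧
    (∀ r : ℕ, 2 ≤ r → ∀ᵐ w : Fin r → ℝ, (∀ i, 0 < w i) →
      weightDim r w = r ∧ HeightsGood r w) := by
  obtain ⟨h1, h2, h3, h4⟩ := Pool.Agent.Results.MP_fcb754_nt.AlmostAllWeights.result
  refine ⟨h1, fun d hd => ?_, fun r d hr hd B hB => ?_, fun r hr => ?_⟩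
  · filter_upwards [h2 d hd] with v hv
    exact ⟨hv.1, fun r w hr hw hs => ⟨(hv.2 r w hr hw hs).1, good_of_rare (hv.2 r w hr hw hs).2⟩⟩
  · filter_upwards [h3 r d hr hd B hB] with v hv hpos
    exact ⟨(hv hpos).1, good_of_rare (hv hpos).2⟩
  · filter_upwards [h4 r hr] with w hw hpos
    exact ⟨(hw hpos).1, good_of_rare (hw hpos).2⟩

end Pool.Agent.Results.MP_fcb754_nt.RandomHeights
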